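import Mathlib
import Pool.Agent.X199.LinfB

/-!
# Almost isometric operators between `L^∞` spaces need not be close to isometric ones

There is a pair of measure spaces such that, for every `ε > 0`, some positive `ε`-isometric
operator `T : L^∞(Ω₁) → L^∞(Ω₂)` of norm at most one has distance at least one to every isometric
operator.  Both measures are counting measures on suitable `σ`-algebras.
-/

open MeasureTheory Filter Topology

namespace Pool.Agent.Results.MP_80693f_an.NoIsometricApproximation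

section defs
variable {E F : Type} [NormedAddCommGroup E] [NormedSpace ℝ E]
  [NormedAddCommGroup F] [NormedSpace ℝ F]

/-- `T` is `ε`-isometric: `(1 - ε)‖x‖ ≤ ‖T x‖ ≤ (1 + ε)‖x‖` for all `x`. -/
def EpsIsometric (ε : ℝ) (T : E →L[ℝ] F) : Prop :=
  ∀ x : E, (1 - ε) * ‖x‖ ≤ ‖T x‖ ∧ ‖T x‖ ≤ (1 + ε) * ‖x‖

/-- `T` is positive: it maps nonnegative elements to nonnegative elements. -/
def IsPositive [LE E] [LE F] (T : E →L[ℝ] F) : Prop :=
  ∀ x : E, 0 ≤ x → 0 ≤ T x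

variable (E F)

/-- Property (A) for `B(E, F)`. -/
def PropertyA : Prop :=
  ∃ δ : ℝ → ℝ, (∀ ε, 0 ≤ δ ε) ∧ Tendsto δ (𝓝[>] 0) (𝓝 0) ∧
    ∀ ε : ℝ, 0 < ε → ε < 1 → ∀ T : E →L[ℝ] F, EpsIsometric ε T →
      ∃ V : E →L[ℝ] F, EpsIsometric 0 V ∧ ‖T - V‖ ≤ δ ε

/-- Property (B₂) for `B(E, F)`. -/
def PropertyB2 [LE E] [LE F] : Prop :=
  ∃ δ : ℝ → ℝ, (∀ ε, 0 ≤ δ ε) ∧ Tendsto δ (𝓝[>] 0) (𝓝 0) ∧
    ∀ ε : ℝ, 0 < ε → ε < 1 → ∀ T : E →L[ℝ] F, IsPositive T → EpsIsometric ε T →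
      ∃ V : E →L[ℝ] F, IsPositive V ∧ EpsIsometric 0 V ∧ ‖T - V‖ ≤ δ ε

/-- For every `ε > 0` there is a positive `ε`-isometric operator `T : E → F` of norm at most `1`
whose distance to every isometric operator, positive or not, is at least `1`. -/
def FarOperators [LE E] [LE F] : Prop :=
  ∀ ε : ℝ, 0 < ε → ∃ T : E →L[ℝ] F, IsPositive T ∧ ‖T‖ ≤ 1 ∧ EpsIsometric ε T ∧
    ∀ V : E →L[ℝ] F, EpsIsometric 0 V → 1 ≤ ‖T - V‖

end defs

open Pool.Agent.X199.LinfA in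
theorem quant : FarOperators (Li K) (Li Gam) := by
  intro ε hε
  obtain ⟨N, hN⟩ := exists_nat_gt (max (2 / ε) 1)
  have hN1 : (1 : ℝ) < N := lt_of_le_of_lt (le_max_right _ _) hN
  have hN1' : 1 ≤ N := by exact_mod_cast hN1.le
  have hN0 : (0 : ℝ) < N := by linarith
  have h2 : 2 / (N : ℝ) ≤ ε := by
    have := lt_of_le_of_lt (le_max_left _ _) hN
    rw [div_lt_iff₀ hε] at this
    rw [div_le_iff₀ hN0]
    linarith
  refine ⟨T N hN1', T_pos N hN1', T_norm N hN1', ?_, ?_⟩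
  · intro x
    have h0 := norm_nonneg x
    constructor
    · refine le_trans ?_ (T_lower N hN1' x)
      exact mul_le_mul_of_nonneg_right (by linarith) h0
    · have h3 := (T N hN1').le_of_opNorm_le (T_norm N hN1') x
      nlinarith
  · intro V hV
    refine main N hN1' V (fun x => ?_)
    have := hV x
    simp only [sub_zero, add_zero, one_mul] at this
    exact le_antisymm this.2 this.1

/-- **Main theorem.**  There are measure spaces `(Ω₁, μ₁)` and `(Ω₂, μ₂)` such that for every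
`ε > 0` there is a positive operator `T : L^∞(μ₁) → L^∞(μ₂)` of norm at most `1` which is
`ε`-isometric and satisfies `‖T - V‖ ≥ 1` for every isometric operator `V : L^∞(μ₁) → L^∞(μ₂)`.
In particular both property (A) and property (B₂) fail for `B(L^∞(μ₁), L^∞(μ₂))`. -/
theorem result : ∃ (Ω₁ Ω₂ : Type) (_ : MeasurableSpace Ω₁) (_ : MeasurableSpace Ω₂)
    (μ₁ : Measure Ω₁) (μ₂ : Measure Ω₂),
    FarOperators (Lp ℝ ⊤ μ₁) (Lp ℝ ⊤ μ₂) ∧
    ¬ PropertyA (Lp ℝ ⊤ μ₁) (Lp ℝ ⊤ μ₂) ∧ ¬ PropertyB2 (Lp ℝ ⊤ μ₁) (Lp ℝ ⊤ μ₂) := by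
  have small : ∀ δ : ℝ → ℝ, Tendsto δ (𝓝[>] 0) (𝓝 0) → ∃ ε : ℝ, 0 < ε ∧ ε < 1 ∧ δ ε < 1 := by
    intro δ hδ
    have h1 : ∀ᶠ ε in 𝓝[>] (0 : ℝ), δ ε < 1 := hδ.eventually (gt_mem_nhds zero_lt_one)
    have h2 : ∀ᶠ ε in 𝓝[>] (0 : ℝ), ε ∈ Set.Ioo (0 : ℝ) 1 := Ioo_mem_nhdsGT zero_lt_one
    obtain ⟨ε, h3, h4⟩ := (h1.and h2).exists
    exact ⟨ε, h4.1, h4.2, h3⟩
  refine ⟨Pool.Agent.X199.LinfA.K, Pool.Agent.X199.LinfA.Gam, inferInstance, inferInstance,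
    Measure.count, Measure.count, quant, ?_, ?_⟩
  · rintro ⟨δ, -, hδ, h⟩
    obtain ⟨ε, h0, h1, h2⟩ := small δ hδ
    obtain ⟨T, -, -, hT, hV⟩ := quant ε h0
    obtain ⟨V, hV1, hV2⟩ := h ε h0 h1 T hT
    have := hV V hV1
    linarith
  · rintro ⟨δ, -, hδ, h⟩
    obtain ⟨ε, h0, h1, h2⟩ := small δ hδ
    obtain ⟨T, hTp, -, hT, hV⟩ := quant ε h0
    obtain ⟨V, -, hV1, hV2⟩ := h ε h0 h1 T hTp hT
    have := hV V hV1
    linarith

end Pool.Agent.Results.MP_80693f_an.NoIsometricApproximation
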